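import Mathlib
import Pool.Agent.Lib_helper76.FTG.Defs
import Pool.Agent.Lib_helper76.FTG.Glue

set_option autoImplicit false

namespace Pool.Agent.Results.MP_b47bfe_gt.FourKR

open Pool.Agent.Lib_helper76.FTG

universe u

/-- Let `X` be a metrizable space whose set of non-isolated points is compact, and let `F` with
`i : X → F` be the free topological group on `X`. Then the subspace `F_4(X)` of all elements of
reduced length at most four is a `k_R`-space; it is even a Fréchet–Urysohn space (Yamada's
conjecture). -/
theorem result (X : Type u) [TopologicalSpace X] [TopologicalSpace.MetrizableSpace X]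
    (hX : IsCompact {x : X | ¬ IsOpen ({x} : Set X)})
    (F : Type u) [TopologicalSpace F] [Group F] (i : X → F) (hF : IsFreeTopGroup i) :
    IsKRSpace (wordBall i 4) ∧ FrechetUrysohnSpace (wordBall i 4) := by
  obtain ⟨ρ, h, S⟩ := exists_setup X hX
  exact main S hF

end Pool.Agent.Results.MP_b47bfe_gt.FourKR
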